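import Pool.Agent.N556.CQ.Stm

/-!
# Circumscribed quadrilaterals: degenerate maximal quadrilaterals (helper353)
-/

set_option autoImplicit false

namespace Pool.Agent.N353.CQ

open MeasureTheory Set Pool.Agent.N556.CQ

theorem tri (h : S_QUAD) (K : Set P) (p q r : P) (hp : p ∈ K) (hq : q ∈ K) (hr : r ∈ K)
    (h4 : cr (q - p) (r - p) = 4)
    (hmax : ∀ A ∈ K, ∀ B ∈ K, ∀ C ∈ K, ∀ D ∈ K, cr (A - C) (B - D) ≤ 4) : Cov K 2 := by
  have e1 : cr (r - p) (r - p) = 0 := by
    unfold cr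
    ring
  have e2 : cr (r - q) (r - q) = 0 := by
    unfold cr
    ring
  have e3 : cr (r - p) (r - q) = 4 := by
    rw [← h4]
    simp only [cr, Prod.fst_sub, Prod.snd_sub]
    ring
  obtain ⟨h1, h2⟩ := h p q r r (by rw [h4]; norm_num) (by rw [e1]) (by rw [h4]; norm_num)
    (by rw [e2]) (by rw [e3]; norm_num)
  refine ⟨p, q, r, r, fun x hx => h2 x ?_ ?_ ?_ ?_, ?_⟩
  · have h5 := hmax r hr p hp x hx q hq
    have h6 : cr (q - p) (x - p) = cr (q - p) (r - p) - cr (r - x) (p - q) := by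
      simp only [cr, Prod.fst_sub, Prod.snd_sub]
      ring
    rw [h6, h4]
    linarith
  · have h5 := hmax p hp q hq x hx r hr
    have h6 : cr (r - q) (x - q) = cr (q - p) (r - p) - cr (p - x) (q - r) := by
      simp only [cr, Prod.fst_sub, Prod.snd_sub]
      ring
    rw [h6, h4]
    linarith
  · have h6 : cr (r - r) (x - r) = 0 := by
      simp only [cr, Prod.fst_sub, Prod.snd_sub]
      ring
    rw [h6]
  · have h5 := hmax q hq r hr x hx p hp
    have h6 : cr (p - r) (x - r) = cr (q - p) (r - p) - cr (q - x) (r - p) := by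
      simp only [cr, Prod.fst_sub, Prod.snd_sub]
      ring
    rw [h6, h4]
    linarith
  · rw [e3] at h1
    refine h1.trans (le_of_eq ?_)
    norm_num

theorem deg (h : S_QUAD) : S_DEG := by
  intro K a b _ h1 h2 h3 h4 hmax hab
  rcases hab with rfl | rfl | rfl | rfl
  · refine tri h K (b, -1) (1, 1) (-1, 1) h4 h1 h2 ?_ hmax
    simp only [cr, Prod.fst_sub, Prod.snd_sub]
    ring
  · refine tri h K (b, 1) (-1, -1) (1, -1) h3 h2 h1 ?_ hmax
    simp only [cr, Prod.fst_sub, Prod.snd_sub]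
    ring
  · refine tri h K (-1, a) (1, -1) (1, 1) h2 h4 h3 ?_ hmax
    simp only [cr, Prod.fst_sub, Prod.snd_sub]
    ring
  · refine tri h K (1, a) (-1, 1) (-1, -1) h1 h3 h4 ?_ hmax
    simp only [cr, Prod.fst_sub, Prod.snd_sub]
    ring

end Pool.Agent.N353.CQ
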